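import Pool.Agent.Helper77.T2.Ord

/-!
# MP_0fb3e0: finite index of the congruence subgroup and of finite extensions
-/

set_option autoImplicit false

namespace Pool.Agent.Helper82.VL

/-- a map to a finite type which separates the left cosets of `K` in `H` -/
theorem finIdx_of_fun {G : Type*} [Group G] (K H : Subgroup G) {α : Type*} [Finite α]
    (f : H → α) (hf : ∀ g g' : H, f g = f g' → (g : G)⁻¹ * g' ∈ K) :
    (K.subgroupOf H).FiniteIndex := by
  have hfin : Finite (H ⧸ K.subgroupOf H) := by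
    refine Finite.of_injective (fun q : H ⧸ K.subgroupOf H => f q.out) ?_
    intro q q' h
    have h1 := hf _ _ h
    rw [← q.out_eq, ← q'.out_eq]
    refine QuotientGroup.eq.2 ?_
    rw [Subgroup.mem_subgroupOf]
    exact h1
  exact Subgroup.finiteIndex_of_finite_quotient

theorem finIdx_relIndex {G : Type*} [Group G] {K H : Subgroup G} :
    (K.subgroupOf H).FiniteIndex ↔ K.relIndex H ≠ 0 :=
  ⟨fun h => h.index_ne_zero, fun h => ⟨h⟩⟩

theorem finIdx_trans {G : Type*} [Group G] {K L H : Subgroup G} (h1 : K ≤ L) (h2 : L ≤ H)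
    (hK : (K.subgroupOf L).FiniteIndex) (hL : (L.subgroupOf H).FiniteIndex) :
    (K.subgroupOf H).FiniteIndex := by
  rw [finIdx_relIndex] at *
  rw [← Subgroup.relIndex_mul_relIndex K L H h1 h2]
  exact mul_ne_zero hK hL

theorem finIdx_map {G G' : Type*} [Group G] [Group G'] (φ : G →* G') {K H : Subgroup G}
    (hK : (K.subgroupOf H).FiniteIndex) : ((K.map φ).subgroupOf (H.map φ)).FiniteIndex := by
  classical
  have := hK
  have h1 : ∀ y : H.map φ, ∃ x : H, φ x = y := by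
    rintro ⟨y, x, hx, rfl⟩
    exact ⟨⟨x, hx⟩, rfl⟩
  choose s hs using h1
  refine finIdx_of_fun (K.map φ) (H.map φ)
    (fun y => (QuotientGroup.mk (s y) : H ⧸ K.subgroupOf H)) ?_
  intro g g' h
  have h2 := QuotientGroup.eq.1 h
  rw [Subgroup.mem_subgroupOf] at h2
  refine ⟨_, h2, ?_⟩
  rw [← hs g, ← hs g']
  simp

/-- extension of a subgroup by two normalising elements which commute modulo it -/
theorem exists_fin_ext {G : Type*} [Group G] (H1 : Subgroup G) (W X : G)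
    (hW : ∀ h ∈ H1, W * h * W⁻¹ ∈ H1) (hX : ∀ h ∈ H1, X * h * X⁻¹ ∈ H1)
    (hW2 : W ^ 2 ∈ H1) (hX4 : X ^ 4 ∈ H1) (hWX : X * W * X⁻¹ * W⁻¹ ∈ H1) :
    ∃ H : Subgroup G, H1 ≤ H ∧ W ∈ H ∧ X ∈ H ∧
      H ≤ Subgroup.closure ((H1 : Set G) ∪ {W, X}) ∧ (H1.subgroupOf H).FiniteIndex := by
  classical
  have hXn : ∀ n : ℕ, ∀ h ∈ H1, X ^ n * h * (X ^ n)⁻¹ ∈ H1 := by
    intro n
    induction n with
    | zero => intro h hh; simpa using hh
    | succ n ih =>
      intro h hh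
      have := hX _ (ih h hh)
      rw [pow_succ']
      convert this using 1
      group
  have hWN : W ∈ Subgroup.normalizer (H1 : Set G) := by
    rw [Subgroup.mem_normalizer_iff]
    refine fun h => ⟨hW h, fun hh => ?_⟩
    have h1 := hW _ hh
    have h2 := H1.mul_mem (H1.mul_mem (H1.inv_mem hW2) h1) hW2
    convert h2 using 1
    group
  have hXN : X ∈ Subgroup.normalizer (H1 : Set G) := by
    rw [Subgroup.mem_normalizer_iff]
    refine fun h => ⟨hX h, fun hh => ?_⟩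
    have h1 := hXn 3 _ hh
    have h2 := H1.mul_mem (H1.mul_mem (H1.inv_mem hX4) h1) hX4
    convert h2 using 1
    group
  obtain ⟨N, hN⟩ : ∃ N : Subgroup G, N = Subgroup.normalizer (H1 : Set G) := ⟨_, rfl⟩
  rw [← hN] at hWN hXN
  have hle : H1 ≤ N := by
    rw [hN]
    exact Subgroup.le_normalizer
  have : (H1.subgroupOf N).Normal := by
    rw [hN]
    infer_instance
  obtain ⟨π, hπ⟩ : ∃ π : N →* N ⧸ (H1.subgroupOf N), π = QuotientGroup.mk' _ := ⟨_, rfl⟩
  have hker : ∀ n n' : N, π n = π n' → (n : G)⁻¹ * n' ∈ H1 := by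
    intro n n' h
    rw [hπ] at h
    have h1 := QuotientGroup.eq.1 h
    rwa [Subgroup.mem_subgroupOf] at h1
  have hker1 : ∀ n : N, (n : G) ∈ H1 → π n = 1 := by
    intro n h
    rw [hπ]
    exact (QuotientGroup.eq_one_iff n).2 (Subgroup.mem_subgroupOf.2 h)
  obtain ⟨w, hw⟩ : ∃ w : N, (w : G) = W := ⟨⟨W, hWN⟩, rfl⟩
  obtain ⟨x, hx⟩ : ∃ x : N, (x : G) = X := ⟨⟨X, hXN⟩, rfl⟩
  have hw2 : π w ^ 2 = 1 := by
    rw [← map_pow]
    apply hker1
    rw [Subgroup.coe_pow, hw]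
    exact hW2
  have hx4 : π x ^ 4 = 1 := by
    rw [← map_pow]
    apply hker1
    rw [Subgroup.coe_pow, hx]
    exact hX4
  have hcomm : Commute (π w) (π x) := by
    have h1 : π (x * w * x⁻¹ * w⁻¹) = 1 := by
      apply hker1
      push_cast
      rw [hw, hx]
      exact hWX
    have h2 : π x * π w * (π x)⁻¹ * (π w)⁻¹ = 1 := by
      simpa only [map_mul, map_inv] using h1
    show π w * π x = π x * π w
    calc π w * π x = 1 * (π w * π x) := (one_mul _).symm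
      _ = (π x * π w * (π x)⁻¹ * (π w)⁻¹) * (π w * π x) := by rw [h2]
      _ = π x * π w := by group
  -- the subgroup of the quotient
  obtain ⟨R, hR⟩ : ∃ R : Subgroup (N ⧸ (H1.subgroupOf N)),
      ∀ g, g ∈ R ↔ ∃ a j : ℤ, g = π w ^ a * π x ^ j := by
    refine ⟨{ carrier := {g | ∃ a j : ℤ, g = π w ^ a * π x ^ j}
              mul_mem' := ?_
              one_mem' := ⟨0, 0, by simp⟩
              inv_mem' := ?_ }, fun g => Iff.rfl⟩
    · rintro _ _ ⟨a, j, rfl⟩ ⟨b, l, rfl⟩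
      refine ⟨a + b, j + l, ?_⟩
      have h1 : π x ^ j * π w ^ b = π w ^ b * π x ^ j := ((hcomm.zpow_zpow b j).eq).symm
      rw [zpow_add, zpow_add]
      calc π w ^ a * π x ^ j * (π w ^ b * π x ^ l)
          = π w ^ a * (π x ^ j * π w ^ b) * π x ^ l := by group
        _ = π w ^ a * (π w ^ b * π x ^ j) * π x ^ l := by rw [h1]
        _ = _ := by group
    · rintro _ ⟨a, j, rfl⟩
      refine ⟨-a, -j, ?_⟩
      rw [mul_inv_rev, ← zpow_neg, ← zpow_neg]
      exact ((hcomm.zpow_zpow (-a) (-j)).eq).symm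
  have hRfin : Finite R := by
    have h1 : ((R : Set (N ⧸ (H1.subgroupOf N)))).Finite := by
      refine (Set.Finite.image (fun p : Fin 2 × Fin 4 => π w ^ (p.1 : ℕ) * π x ^ (p.2 : ℕ))
        (Set.finite_univ)).subset ?_
      rintro g hg
      obtain ⟨a, j, rfl⟩ := (hR g).1 hg
      refine ⟨(⟨(a % 2).toNat, by omega⟩, ⟨(j % 4).toNat, by omega⟩), Set.mem_univ _, ?_⟩
      have e1 : π w ^ a = π w ^ ((a % 2).toNat) := by
        have h3 : a = ((a % 2).toNat : ℤ) + 2 * (a / 2) := by omega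
        conv_lhs => rw [h3]
        rw [zpow_add, zpow_mul, zpow_natCast]
        have : π w ^ (2 : ℤ) = 1 := by exact_mod_cast hw2
        rw [this, one_zpow, mul_one]
      have e2 : π x ^ j = π x ^ ((j % 4).toNat) := by
        have h3 : j = ((j % 4).toNat : ℤ) + 4 * (j / 4) := by omega
        conv_lhs => rw [h3]
        rw [zpow_add, zpow_mul, zpow_natCast]
        have : π x ^ (4 : ℤ) = 1 := by exact_mod_cast hx4
        rw [this, one_zpow, mul_one]
      rw [e1, e2]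
    exact h1
  have hmem : ∀ g : G, g ∈ (R.comap π).map N.subtype ↔ ∃ n : N, (n : G) = g ∧ π n ∈ R := by
    intro g
    constructor
    · rintro ⟨n, hn, rfl⟩
      exact ⟨n, rfl, hn⟩
    · rintro ⟨n, rfl, hn⟩
      exact ⟨n, hn, rfl⟩
  refine ⟨(R.comap π).map N.subtype, ?_, ?_, ?_, ?_, ?_⟩
  · intro h hh
    refine (hmem h).2 ⟨⟨h, hle hh⟩, rfl, ?_⟩
    rw [hker1 ⟨h, hle hh⟩ hh]
    exact R.one_mem
  · exact (hmem W).2 ⟨w, hw, (hR _).2 ⟨1, 0, by simp⟩⟩
  · exact (hmem X).2 ⟨x, hx, (hR _).2 ⟨0, 1, by simp⟩⟩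
  · intro g hg
    obtain ⟨n, rfl, hn⟩ := (hmem g).1 hg
    obtain ⟨a, j, h1⟩ := (hR _).1 hn
    have h2 : π n = π (w ^ a * x ^ j) := by
      rw [h1, map_mul, map_zpow, map_zpow]
    have h3 := hker _ _ h2
    have hWc : W ∈ Subgroup.closure ((H1 : Set G) ∪ {W, X}) :=
      Subgroup.subset_closure (Or.inr (Or.inl rfl))
    have hXc : X ∈ Subgroup.closure ((H1 : Set G) ∪ {W, X}) :=
      Subgroup.subset_closure (Or.inr (Or.inr rfl))
    have h4 : ((w ^ a * x ^ j : N) : G) ∈ Subgroup.closure ((H1 : Set G) ∪ {W, X}) := by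
      push_cast
      rw [hw, hx]
      exact Subgroup.mul_mem _ (Subgroup.zpow_mem _ hWc _) (Subgroup.zpow_mem _ hXc _)
    have h5 : (n : G) = ((w ^ a * x ^ j : N) : G) * ((n : G)⁻¹ * ((w ^ a * x ^ j : N) : G))⁻¹ := by
      group
    rw [h5]
    exact Subgroup.mul_mem _ h4 (Subgroup.inv_mem _ (Subgroup.subset_closure (Or.inl h3)))
  · have h1 : ∀ g : ((R.comap π).map N.subtype : Subgroup G), ∃ n : N, (n : G) = g ∧ π n ∈ R :=
      fun g => (hmem g).1 g.2
    choose s hs hs' using h1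
    refine finIdx_of_fun H1 _ (fun g => (⟨π (s g), hs' g⟩ : R)) ?_
    intro g g' h
    have h2 := hker _ _ (congrArg Subtype.val h)
    rw [hs, hs] at h2
    exact h2

open H77T2

/-- the congruence subgroup modulo `3` has finite index in the group of units of the order -/
theorem finIdx_units (U G0 : Subgroup (A5 ℚ)ˣ)
    (hU : ∀ u ∈ U, (u : A5 ℚ) ∈ O ∧ ((u⁻¹ : (A5 ℚ)ˣ) : A5 ℚ) ∈ O)
    (hG : ∀ u ∈ U, (∃ h ∈ O, (u : A5 ℚ) = 1 + 3 * h) → u ∈ G0) :
    (G0.subgroupOf U).FiniteIndex := by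
  have h1 : ∀ u : U, ∃ n : Fin 16 → ℤ, ((u : (A5 ℚ)ˣ) : A5 ℚ) = oe n :=
    fun u => exists_oe (hU u u.2).1
  choose c hc using h1
  refine finIdx_of_fun G0 U (fun u i => ((c u i : ℤ) : ZMod 3)) ?_
  intro g g' h
  have h2 : ∀ i, ∃ q : ℤ, c g' i = c g i + 3 * q := by
    intro i
    have h3 : ((c g i : ℤ) : ZMod 3) = ((c g' i : ℤ) : ZMod 3) := congrFun h i
    have h4 := (ZMod.intCast_eq_intCast_iff_dvd_sub _ _ 3).1 h3
    obtain ⟨q, hq⟩ := h4
    refine ⟨q, ?_⟩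
    push_cast at hq
    omega
  choose q hq using h2
  have h3 : ((g' : (A5 ℚ)ˣ) : A5 ℚ) = ((g : (A5 ℚ)ˣ) : A5 ℚ) + 3 * oe q := by
    rw [hc g, hc g']
    apply cancel45
    have e1 : (45 : A5 ℚ) * (3 * oe q) = 3 * (45 * oe q) := by
      have a1 : (45 : A5 ℚ) = ((45 : ℕ) : A5 ℚ) := by norm_num
      have a2 : (3 : A5 ℚ) = ((3 : ℕ) : A5 ℚ) := by norm_num
      rw [a1, a2, ← mul_assoc, ← mul_assoc, ← Nat.cast_mul, ← Nat.cast_mul, mul_comm 45 3]
    rw [mul_add, e1, oe_eq, oe_eq, oe_eq]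
    have e2 : (c g' : Fin 16 → ℤ) = c g + (3 : ℤ) • q := by
      funext i
      rw [hq i]
      simp
    rw [e2, lin_add, lin_smul, map_add, map_mul]
    congr 2
  have hinv := (hU g g.2).2
  refine hG _ (U.mul_mem (U.inv_mem g.2) g'.2) ⟨_, O.mul_mem hinv (oe_mem q), ?_⟩
  rw [Units.val_mul, h3, mul_add, Units.inv_mul]
  congr 1
  have a2 : (3 : A5 ℚ) = ((3 : ℕ) : A5 ℚ) := by norm_num
  rw [a2, ← mul_assoc, ← mul_assoc]
  congr 1
  exact ((Nat.cast_commute 3 _).eq).symm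

end Pool.Agent.Helper82.VL
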