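import Mathlib

/-!
# VL (MP_0fb3e0): Sanov's subgroup of GL2(Z)

`sM = [[1,2],[0,1]]`, `tM = [[1,0],[2,1]]` generate a free group of rank two (ping-pong) of finite index in `GL2(Z)` (descent: it
contains the kernel of reduction modulo `4`). `aM = [[0,1],[1,0]]`, `aM * sM * aM⁻¹ = tM`.
-/

set_option autoImplicit false

namespace Pool.Agent.Helper82.VL

open Matrix

/-- `[[1,2],[0,1]]` -/
def sM : GL (Fin 2) ℤ where
  val := !![1, 2; 0, 1]
  inv := !![1, -2; 0, 1]
  val_inv := by decide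
  inv_val := by decide

/-- `[[1,0],[2,1]]` -/
def tM : GL (Fin 2) ℤ where
  val := !![1, 0; 2, 1]
  inv := !![1, 0; -2, 1]
  val_inv := by decide
  inv_val := by decide

/-- `[[0,1],[1,0]]` -/
def aM : GL (Fin 2) ℤ where
  val := !![0, 1; 1, 0]
  inv := !![0, 1; 1, 0]
  val_inv := by decide
  inv_val := by decide

theorem aM_conj : aM * sM * aM⁻¹ = tM := by
  apply Units.ext
  change (!![0, 1; 1, 0] * !![1, 2; 0, 1]) * !![0, 1; 1, 0] = (!![1, 0; 2, 1] : Matrix (Fin 2) (Fin 2) ℤ)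
  decide

/-! ### entries -/

theorem s_mul (g : GL (Fin 2) ℤ) : (sM * g).1 0 0 = g.1 0 0 + 2 * g.1 1 0 ∧ (sM * g).1 1 0 = g.1 1 0 ∧
    (sM * g).1 0 1 = g.1 0 1 + 2 * g.1 1 1 ∧ (sM * g).1 1 1 = g.1 1 1 := by
  have h : (sM * g).1 = !![1, 2; 0, 1] * g.1 := rfl
  simp [h, Matrix.mul_apply, Fin.sum_univ_two]

theorem sinv_mul (g : GL (Fin 2) ℤ) : (sM⁻¹ * g).1 0 0 = g.1 0 0 - 2 * g.1 1 0 ∧ (sM⁻¹ * g).1 1 0 = g.1 1 0 ∧
    (sM⁻¹ * g).1 0 1 = g.1 0 1 - 2 * g.1 1 1 ∧ (sM⁻¹ * g).1 1 1 = g.1 1 1 := by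
  have h : (sM⁻¹ * g).1 = !![1, -2; 0, 1] * g.1 := rfl
  simp [h, Matrix.mul_apply, Fin.sum_univ_two]
  constructor <;> ring

theorem t_mul (g : GL (Fin 2) ℤ) : (tM * g).1 0 0 = g.1 0 0 ∧ (tM * g).1 1 0 = g.1 1 0 + 2 * g.1 0 0 ∧
    (tM * g).1 0 1 = g.1 0 1 ∧ (tM * g).1 1 1 = g.1 1 1 + 2 * g.1 0 1 := by
  have h : (tM * g).1 = !![1, 0; 2, 1] * g.1 := rfl
  simp [h, Matrix.mul_apply, Fin.sum_univ_two]
  constructor <;> ring

theorem tinv_mul (g : GL (Fin 2) ℤ) : (tM⁻¹ * g).1 0 0 = g.1 0 0 ∧ (tM⁻¹ * g).1 1 0 = g.1 1 0 - 2 * g.1 0 0 ∧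
    (tM⁻¹ * g).1 0 1 = g.1 0 1 ∧ (tM⁻¹ * g).1 1 1 = g.1 1 1 - 2 * g.1 0 1 := by
  have h : (tM⁻¹ * g).1 = !![1, 0; -2, 1] * g.1 := rfl
  simp [h, Matrix.mul_apply, Fin.sum_univ_two]
  constructor <;> ring

theorem det_or (g : GL (Fin 2) ℤ) : g.1 0 0 * g.1 1 1 - g.1 0 1 * g.1 1 0 = 1 ∨
    g.1 0 0 * g.1 1 1 - g.1 0 1 * g.1 1 0 = -1 := by
  have h1 : IsUnit g.1.det := (Matrix.isUnit_iff_isUnit_det g.1).1 g.isUnit
  rw [Matrix.det_fin_two] at h1
  exact Int.isUnit_iff.1 h1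

theorem col_ne (g : GL (Fin 2) ℤ) (hx : g.1 0 0 = 0) : g.1 1 0 ≠ 0 := by
  intro hy
  rcases det_or g with h | h <;> rw [hx, hy] at h <;> norm_num at h

/-! ### ping-pong -/

/-- the generators -/
def gen (b : Bool) : GL (Fin 2) ℤ := if b then tM else sM

/-- the attracting sets -/
def XX (b : Bool) : Set (GL (Fin 2) ℤ) :=
  if b then {g | 0 ≤ g.1 0 0 * g.1 1 0 ∧ g.1 0 0 * g.1 1 0 < g.1 1 0 * g.1 1 0}
  else {g | g.1 1 0 * g.1 1 0 ≤ g.1 0 0 * g.1 1 0}

/-- the repelling sets -/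
def YY (b : Bool) : Set (GL (Fin 2) ℤ) :=
  if b then {g | -(g.1 1 0 * g.1 1 0) ≤ g.1 0 0 * g.1 1 0 ∧ g.1 0 0 * g.1 1 0 < 0}
  else {g | g.1 0 0 * g.1 1 0 < -(g.1 1 0 * g.1 1 0)}

theorem mem_X0 (g : GL (Fin 2) ℤ) : g ∈ XX false ↔ g.1 1 0 * g.1 1 0 ≤ g.1 0 0 * g.1 1 0 := Iff.rfl

theorem mem_X1 (g : GL (Fin 2) ℤ) :
    g ∈ XX true ↔ 0 ≤ g.1 0 0 * g.1 1 0 ∧ g.1 0 0 * g.1 1 0 < g.1 1 0 * g.1 1 0 := Iff.rfl

theorem mem_Y0 (g : GL (Fin 2) ℤ) : g ∈ YY false ↔ g.1 0 0 * g.1 1 0 < -(g.1 1 0 * g.1 1 0) := Iff.rfl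

theorem mem_Y1 (g : GL (Fin 2) ℤ) :
    g ∈ YY true ↔ -(g.1 1 0 * g.1 1 0) ≤ g.1 0 0 * g.1 1 0 ∧ g.1 0 0 * g.1 1 0 < 0 := Iff.rfl

theorem gen_injective : Function.Injective (FreeGroup.lift gen) := by
  apply FreeGroup.injective_lift_of_ping_pong gen XX YY
  · rintro (_ | _)
    · refine ⟨1, ?_⟩
      change (1 : Matrix (Fin 2) (Fin 2) ℤ) 1 0 * (1 : Matrix (Fin 2) (Fin 2) ℤ) 1 0 ≤
        (1 : Matrix (Fin 2) (Fin 2) ℤ) 0 0 * (1 : Matrix (Fin 2) (Fin 2) ℤ) 1 0
      decide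
    · refine ⟨aM, ?_⟩
      change 0 ≤ aM.1 0 0 * aM.1 1 0 ∧ aM.1 0 0 * aM.1 1 0 < aM.1 1 0 * aM.1 1 0
      decide
  · intro i j hij
    rw [Function.onFun, Set.disjoint_left]
    rcases i with _ | _ <;> rcases j with _ | _
    · exact absurd rfl hij
    · intro g
      rw [mem_X0, mem_X1]
      omega
    · intro g
      rw [mem_X0, mem_X1]
      omega
    · exact absurd rfl hij
  · intro i j hij
    rw [Function.onFun, Set.disjoint_left]
    rcases i with _ | _ <;> rcases j with _ | _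
    · exact absurd rfl hij
    · intro g
      rw [mem_Y0, mem_Y1]
      omega
    · intro g
      rw [mem_Y0, mem_Y1]
      omega
    · exact absurd rfl hij
  · intro i j
    rw [Set.disjoint_left]
    intro g
    have hsq : 0 ≤ g.1 1 0 * g.1 1 0 := mul_self_nonneg _
    rcases i with _ | _ <;> rcases j with _ | _
    · rw [mem_X0, mem_Y0]
      omega
    · rw [mem_X0, mem_Y1]
      omega
    · rw [mem_X1, mem_Y0]
      omega
    · rw [mem_X1, mem_Y1]
      omega
  · rintro (_ | _)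
    · rintro _ ⟨g, hg, rfl⟩
      obtain ⟨h1, h2, -, -⟩ := s_mul g
      have h3 : ¬ (g.1 0 0 * g.1 1 0 < -(g.1 1 0 * g.1 1 0)) := hg
      change (sM * g).1 1 0 * (sM * g).1 1 0 ≤ (sM * g).1 0 0 * (sM * g).1 1 0
      rw [h1, h2]
      nlinarith
    · rintro _ ⟨g, hg, rfl⟩
      obtain ⟨h1, h2, -, -⟩ := t_mul g
      have h3 : ¬ (-(g.1 1 0 * g.1 1 0) ≤ g.1 0 0 * g.1 1 0 ∧ g.1 0 0 * g.1 1 0 < 0) := hg
      change 0 ≤ (tM * g).1 0 0 * (tM * g).1 1 0 ∧
        (tM * g).1 0 0 * (tM * g).1 1 0 < (tM * g).1 1 0 * (tM * g).1 1 0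
      rw [h1, h2]
      have hne := col_ne g
      obtain ⟨x, hx⟩ : ∃ x, x = g.1 0 0 := ⟨_, rfl⟩
      obtain ⟨y, hy⟩ : ∃ y, y = g.1 1 0 := ⟨_, rfl⟩
      rw [← hx, ← hy] at h3 hne ⊢
      have h4 : x * y < -(y * y) ∨ 0 ≤ x * y := by
        by_contra hcon
        push Not at hcon
        exact h3 hcon
      rcases h4 with h4 | h4
      · have hy0 : y ≠ 0 := by
          rintro rfl
          simp at h4
        rcases lt_or_gt_of_ne hy0 with h5 | h5
        · have h6 : 0 < x + y := by nlinarith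
          constructor
          · nlinarith
          · nlinarith
        · have h6 : x + y < 0 := by nlinarith
          constructor
          · nlinarith
          · nlinarith
      · constructor
        · nlinarith [mul_self_nonneg x]
        · by_cases hx0 : x = 0
          · have := hne hx0
            have : 0 < y * y := mul_self_pos.2 this
            rw [hx0]
            nlinarith
          · have : 0 < x * x := mul_self_pos.2 hx0
            nlinarith [mul_self_nonneg y]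
  · rintro (_ | _)
    · rintro _ ⟨g, hg, rfl⟩
      obtain ⟨h1, h2, -, -⟩ := sinv_mul g
      have h3 : ¬ (g.1 1 0 * g.1 1 0 ≤ g.1 0 0 * g.1 1 0) := hg
      change (sM⁻¹ * g).1 0 0 * (sM⁻¹ * g).1 1 0 < -((sM⁻¹ * g).1 1 0 * (sM⁻¹ * g).1 1 0)
      rw [h1, h2]
      nlinarith
    · rintro _ ⟨g, hg, rfl⟩
      obtain ⟨h1, h2, -, -⟩ := tinv_mul g
      have h3 : ¬ (0 ≤ g.1 0 0 * g.1 1 0 ∧ g.1 0 0 * g.1 1 0 < g.1 1 0 * g.1 1 0) := hg
      change -((tM⁻¹ * g).1 1 0 * (tM⁻¹ * g).1 1 0) ≤ (tM⁻¹ * g).1 0 0 * (tM⁻¹ * g).1 1 0 ∧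
        (tM⁻¹ * g).1 0 0 * (tM⁻¹ * g).1 1 0 < 0
      rw [h1, h2]
      have hne := col_ne g
      obtain ⟨x, hx⟩ : ∃ x, x = g.1 0 0 := ⟨_, rfl⟩
      obtain ⟨y, hy⟩ : ∃ y, y = g.1 1 0 := ⟨_, rfl⟩
      rw [← hx, ← hy] at h3 hne ⊢
      have h4 : x * y < 0 ∨ y * y ≤ x * y := by
        by_contra hcon
        push Not at hcon
        exact h3 ⟨hcon.1, hcon.2⟩
      rcases h4 with h4 | h4
      · constructor
        · nlinarith [mul_self_nonneg x, mul_self_nonneg y]
        · nlinarith [mul_self_nonneg x]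
      · have hx0 : x ≠ 0 := by
          rintro rfl
          have h5 := hne rfl
          have : 0 < y * y := mul_self_pos.2 h5
          nlinarith
        have hxx : 0 < x * x := mul_self_pos.2 hx0
        have h5 : x * y ≤ x * x := by
          nlinarith [mul_self_nonneg (x - y)]
        constructor
        · nlinarith [mul_self_nonneg (x - y)]
        · nlinarith

/-! ### finite index -/

/-- Sanov's group -/
def San : Subgroup (GL (Fin 2) ℤ) := Subgroup.closure {sM, tM}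

theorem s_mem : sM ∈ San := Subgroup.subset_closure (Set.mem_insert _ _)

theorem t_mem : tM ∈ San := Subgroup.subset_closure (Set.mem_insert_of_mem _ rfl)

private theorem mem_of (h g : GL (Fin 2) ℤ) (hh : h ∈ San) (hg : h * g ∈ San) : g ∈ San := by
  have h1 := San.mul_mem (San.inv_mem hh) hg
  rwa [inv_mul_cancel_left] at h1

private theorem upper (n : ℕ) : ∀ g : GL (Fin 2) ℤ, (g.1 0 1).natAbs ≤ n → g.1 0 0 = 1 → g.1 1 0 = 0 →
    g.1 0 1 % 2 = 0 → g.1 1 1 = 1 → g ∈ San := by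
  induction n using Nat.strong_induction_on with
  | _ n ih =>
    intro g hn hx hy hu hv
    by_cases h0 : g.1 0 1 = 0
    · have h1 : g = 1 := by
        apply Units.ext
        ext i j
        fin_cases i <;> fin_cases j
        · exact hx
        · exact h0
        · exact hy
        · exact hv
      rw [h1]
      exact San.one_mem
    · rcases lt_or_gt_of_ne h0 with h1 | h1
      · apply mem_of sM g s_mem
        obtain ⟨e1, e2, e3, e4⟩ := s_mul g
        refine ih (n - 1) (by omega) _ ?_ ?_ ?_ ?_ ?_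
        · rw [e3, hv]; omega
        · rw [e1, hx, hy]; rfl
        · rw [e2, hy]
        · rw [e3, hv]; omega
        · rw [e4, hv]
      · apply mem_of sM⁻¹ g (San.inv_mem s_mem)
        obtain ⟨e1, e2, e3, e4⟩ := sinv_mul g
        refine ih (n - 1) (by omega) _ ?_ ?_ ?_ ?_ ?_
        · rw [e3, hv]; omega
        · rw [e1, hx, hy]; rfl
        · rw [e2, hy]
        · rw [e3, hv]; omega
        · rw [e4, hv]

/-- the descent -/
theorem descent (n : ℕ) : ∀ g : GL (Fin 2) ℤ, (g.1 0 0).natAbs + (g.1 1 0).natAbs ≤ n → g.1 0 0 % 4 = 1 →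
    g.1 1 0 % 2 = 0 → g.1 0 1 % 2 = 0 → g.1 1 1 % 4 = 1 → g ∈ San := by
  induction n using Nat.strong_induction_on with
  | _ n ih =>
    intro g hn hx hy hu hv
    by_cases h0 : g.1 1 0 = 0
    · -- upper triangular
      have h1 : g.1 0 0 * g.1 1 1 = 1 ∨ g.1 0 0 * g.1 1 1 = -1 := by
        have := det_or g
        rwa [h0, mul_zero, sub_zero] at this
      have h2 : g.1 0 0 = 1 := by
        have h3 : IsUnit (g.1 0 0) := by
          rcases h1 with h1 | h1
          · exact IsUnit.of_mul_eq_one _ h1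
          · exact IsUnit.of_mul_eq_one (-g.1 1 1) (by rw [mul_neg, h1, neg_neg])
        rcases Int.isUnit_iff.1 h3 with h4 | h4
        · exact h4
        · rw [h4] at hx
          norm_num at hx
      have h3 : g.1 1 1 = 1 := by
        rw [h2, one_mul] at h1
        rcases h1 with h1 | h1
        · exact h1
        · rw [h1] at hv
          norm_num at hv
      exact upper _ g le_rfl h2 h0 hu h3
    · have hx0 : g.1 0 0 ≠ 0 := by
        intro h
        rw [h] at hx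
        norm_num at hx
      have hne : (g.1 0 0).natAbs ≠ (g.1 1 0).natAbs := by omega
      rcases lt_or_gt_of_ne hne with h1 | h1
      · -- `|x| < |y|`: multiply by `t`
        by_cases h2 : (0 < g.1 0 0 ∧ 0 < g.1 1 0) ∨ (g.1 0 0 < 0 ∧ g.1 1 0 < 0)
        · apply mem_of tM⁻¹ g (San.inv_mem t_mem)
          obtain ⟨e1, e2, e3, e4⟩ := tinv_mul g
          refine ih (n - 1) (by omega) _ ?_ ?_ ?_ ?_ ?_
          · rw [e1, e2]; omega
          · rw [e1]; exact hx
          · rw [e2]; omega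
          · rw [e3]; exact hu
          · rw [e4]; omega
        · apply mem_of tM g t_mem
          obtain ⟨e1, e2, e3, e4⟩ := t_mul g
          refine ih (n - 1) (by omega) _ ?_ ?_ ?_ ?_ ?_
          · rw [e1, e2]; omega
          · rw [e1]; exact hx
          · rw [e2]; omega
          · rw [e3]; exact hu
          · rw [e4]; omega
      · by_cases h2 : (0 < g.1 0 0 ∧ 0 < g.1 1 0) ∨ (g.1 0 0 < 0 ∧ g.1 1 0 < 0)
        · apply mem_of sM⁻¹ g (San.inv_mem s_mem)
          obtain ⟨e1, e2, e3, e4⟩ := sinv_mul g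
          refine ih (n - 1) (by omega) _ ?_ ?_ ?_ ?_ ?_
          · rw [e1, e2]; omega
          · rw [e1]; omega
          · rw [e2]; exact hy
          · rw [e3]; omega
          · rw [e4]; exact hv
        · apply mem_of sM g s_mem
          obtain ⟨e1, e2, e3, e4⟩ := s_mul g
          refine ih (n - 1) (by omega) _ ?_ ?_ ?_ ?_ ?_
          · rw [e1, e2]; omega
          · rw [e1]; omega
          · rw [e2]; exact hy
          · rw [e3]; omega
          · rw [e4]; exact hv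

/-- reduction modulo `4` -/
noncomputable def red4 : GL (Fin 2) ℤ →* GL (Fin 2) (ZMod 4) :=
  Matrix.GeneralLinearGroup.map (Int.castRingHom (ZMod 4))

theorem ker_le : red4.ker ≤ San := by
  intro g hg
  have h1 : ∀ i j, ((g.1 i j : ℤ) : ZMod 4) = (1 : Matrix (Fin 2) (Fin 2) (ZMod 4)) i j := by
    intro i j
    have h2 := congrArg (fun y : GL (Fin 2) (ZMod 4) => y.1 i j) (MonoidHom.mem_ker.1 hg)
    exact h2
  have e00 : g.1 0 0 % 4 = 1 := by
    have := (ZMod.intCast_eq_intCast_iff_dvd_sub 1 (g.1 0 0) 4).1 (by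
      rw [h1]; simp)
    push_cast at this
    omega
  have e10 : g.1 1 0 % 4 = 0 := by
    have := (ZMod.intCast_eq_intCast_iff_dvd_sub 0 (g.1 1 0) 4).1 (by
      rw [h1]; simp)
    push_cast at this
    omega
  have e01 : g.1 0 1 % 4 = 0 := by
    have := (ZMod.intCast_eq_intCast_iff_dvd_sub 0 (g.1 0 1) 4).1 (by
      rw [h1]; simp)
    push_cast at this
    omega
  have e11 : g.1 1 1 % 4 = 1 := by
    have := (ZMod.intCast_eq_intCast_iff_dvd_sub 1 (g.1 1 1) 4).1 (by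
      rw [h1]; simp)
    push_cast at this
    omega
  exact descent _ g le_rfl e00 (by omega) (by omega) e11

instance san_finiteIndex : San.FiniteIndex := by
  have : Finite (GL (Fin 2) (ZMod 4)) := inferInstance
  have h1 : red4.ker.FiniteIndex := Subgroup.finiteIndex_ker red4
  exact Subgroup.finiteIndex_of_le ker_le

/-- Sanov's group is free of rank two -/
theorem san_free : Nonempty (FreeGroup Bool ≃* San) := by
  have h1 : (FreeGroup.lift gen).range = San := by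
    rw [FreeGroup.range_lift_eq_closure]
    unfold San
    congr 1
    ext g
    constructor
    · rintro ⟨b, rfl⟩
      rcases b with _ | _
      · exact Or.inl rfl
      · exact Or.inr rfl
    · rintro (h | h)
      · exact ⟨false, h.symm⟩
      · exact ⟨true, h.symm⟩
  exact ⟨(MonoidHom.ofInjective gen_injective).trans (MulEquiv.subgroupCongr h1)⟩

end Pool.Agent.Helper82.VL
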