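import Pool.Agent.Helper77.T2.Hyp
import Pool.Agent.Helper82.VL.Sanov

/-!
# VL (MP_0fb3e0): virtually large groups

* `large_comap`: a group with a surjection onto a virtually large group is virtually large.
* `large_of_sub`: a group with a virtually large subgroup of finite index is virtually large.
* `large_sub`: finite index subgroups of virtually large groups are virtually large (Nielsen-Schreier).
* `large_quot`: quotients by finite normal subgroups.
* `large_of_label`: a finite index subgroup `H` and a homomorphism `H → GL2(Z)` with `sM`, `tM` in the image.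
* `large_of_cocycle`, `large_of_wreath`: labelled permutations.
-/

set_option autoImplicit false

namespace Pool.Agent.Helper82.VL

open H77T2 Equiv

theorem large_comap {G Q : Type} [Group G] [Group Q] (f : G →* Q) (hf : Function.Surjective f)
    (h : VirtuallyLarge Q) : VirtuallyLarge G := by
  obtain ⟨Δ, hΔ, ι, hι, φ, hφ⟩ := h
  refine ⟨Δ.comap f, ?_, ι, hι, φ.comp (f.subgroupComap Δ), ?_⟩
  · constructor
    rw [Subgroup.index_comap_of_surjective Δ hf]
    exact hΔ.index_ne_zero
  · intro y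
    obtain ⟨x, hx⟩ := hφ y
    obtain ⟨g, hg⟩ := hf x
    refine ⟨⟨g, ?_⟩, ?_⟩
    · rw [Subgroup.mem_comap, hg]
      exact x.2
    · rw [MonoidHom.comp_apply, ← hx]
      congr 1
      exact Subtype.ext hg

theorem large_of_sub {G : Type} [Group G] (H : Subgroup G) [hH : H.FiniteIndex] (h : VirtuallyLarge H) :
    VirtuallyLarge G := by
  obtain ⟨Δ, hΔ, ι, hι, φ, hφ⟩ := h
  refine ⟨Δ.map H.subtype, ?_, ι, hι, φ.comp (Δ.equivMapOfInjective H.subtype H.subtype_injective).symm.toMonoidHom, ?_⟩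
  · constructor
    rw [Subgroup.index_map_subtype]
    exact mul_ne_zero hΔ.index_ne_zero hH.index_ne_zero
  · exact hφ.comp (Δ.equivMapOfInjective H.subtype H.subtype_injective).symm.surjective

theorem large_equiv {G Q : Type} [Group G] [Group Q] (e : G ≃* Q) (h : VirtuallyLarge Q) : VirtuallyLarge G :=
  large_comap e.toMonoidHom e.surjective h

theorem large_free (ι : Type) [Nontrivial ι] : VirtuallyLarge (FreeGroup ι) :=
  ⟨⊤, inferInstance, ι, inferInstance, (Subgroup.topEquiv (G := FreeGroup ι)).toMonoidHom,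
    (Subgroup.topEquiv (G := FreeGroup ι)).surjective⟩

/-- free groups on at most one generator are commutative -/
private theorem free_comm {ι : Type} [Subsingleton ι] (x y : FreeGroup ι) : x * y = y * x := by
  rcases isEmpty_or_nonempty ι with h | ⟨⟨i⟩⟩
  · exact Subsingleton.elim _ _
  · have : Unique ι := ⟨⟨i⟩, fun j => Subsingleton.elim _ _⟩
    have h1 : IsCyclic (FreeGroup ι) := inferInstance
    have h2 := IsCyclic.isMulCommutative (α := FreeGroup ι)
    exact h2.is_comm.comm x y

private theorem s_pow (n : ℕ) : (sM ^ n).1 0 0 = 1 ∧ (sM ^ n).1 0 1 = 2 * n ∧ (sM ^ n).1 1 0 = 0 ∧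
    (sM ^ n).1 1 1 = 1 := by
  induction n with
  | zero =>
    rw [pow_zero]
    refine ⟨rfl, rfl, rfl, rfl⟩
  | succ n ih =>
    rw [pow_succ']
    obtain ⟨e1, e2, e3, e4⟩ := s_mul (sM ^ n)
    obtain ⟨h1, h2, h3, h4⟩ := ih
    rw [e1, e2, e3, e4, h1, h2, h3, h4]
    exact ⟨by norm_num, by push_cast; ring, rfl, rfl⟩

private theorem t_pow (n : ℕ) : (tM ^ n).1 0 0 = 1 ∧ (tM ^ n).1 0 1 = 0 ∧ (tM ^ n).1 1 0 = 2 * n ∧
    (tM ^ n).1 1 1 = 1 := by
  induction n with
  | zero =>
    rw [pow_zero]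
    refine ⟨rfl, rfl, rfl, rfl⟩
  | succ n ih =>
    rw [pow_succ']
    obtain ⟨e1, e2, e3, e4⟩ := t_mul (tM ^ n)
    obtain ⟨h1, h2, h3, h4⟩ := ih
    rw [e1, e2, e3, e4, h1, h2, h3, h4]
    exact ⟨rfl, rfl, by push_cast; ring, by norm_num⟩

/-- powers of different generators do not commute -/
private theorem free_ne {ι : Type} {i j : ι} (hij : i ≠ j) {n m : ℕ} (hn : 0 < n) (hm : 0 < m) :
    (FreeGroup.of i : FreeGroup ι) ^ n * FreeGroup.of j ^ m ≠ FreeGroup.of j ^ m * FreeGroup.of i ^ n := by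
  classical
  intro h
  have h1 := congrArg (FreeGroup.lift fun k => if k = i then sM else tM) h
  rw [map_mul, map_mul, map_pow, map_pow, FreeGroup.lift_apply_of, FreeGroup.lift_apply_of, if_pos rfl,
    if_neg hij.symm] at h1
  have h2 := congrArg (fun y : GL (Fin 2) ℤ => y.1 0 0) h1
  obtain ⟨a1, a2, a3, a4⟩ := s_pow n
  obtain ⟨b1, b2, b3, b4⟩ := t_pow m
  have h3 : (sM ^ n).1 0 0 * (tM ^ m).1 0 0 + (sM ^ n).1 0 1 * (tM ^ m).1 1 0 =
      (tM ^ m).1 0 0 * (sM ^ n).1 0 0 + (tM ^ m).1 0 1 * (sM ^ n).1 1 0 := by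
    have e1 : (sM ^ n * tM ^ m).1 0 0 = (sM ^ n).1 0 0 * (tM ^ m).1 0 0 + (sM ^ n).1 0 1 * (tM ^ m).1 1 0 := by
      rw [Units.val_mul, Matrix.mul_apply, Fin.sum_univ_two]
    have e2 : (tM ^ m * sM ^ n).1 0 0 = (tM ^ m).1 0 0 * (sM ^ n).1 0 0 + (tM ^ m).1 0 1 * (sM ^ n).1 1 0 := by
      rw [Units.val_mul, Matrix.mul_apply, Fin.sum_univ_two]
    rw [← e1, ← e2]
    exact h2
  rw [a1, a2, a3, b1, b2, b3] at h3
  have h4 : (0 : ℤ) < n := by exact_mod_cast hn
  have h5 : (0 : ℤ) < m := by exact_mod_cast hm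
  nlinarith [mul_pos h4 h5]

/-- finite index subgroups of free groups -/
theorem large_sub_free {ι : Type} [Nontrivial ι] (J : Subgroup (FreeGroup ι)) [hJ : J.FiniteIndex] :
    VirtuallyLarge J := by
  have hfree : IsFreeGroup J := inferInstance
  have e : FreeGroup (IsFreeGroup.Generators J) ≃* J := IsFreeGroup.toFreeGroup J |>.symm
  rcases subsingleton_or_nontrivial (IsFreeGroup.Generators J) with h | h
  · exfalso
    obtain ⟨i, j, hij⟩ := exists_pair_ne ι
    obtain ⟨n, hn, -, hn'⟩ := Subgroup.exists_pow_mem_of_index_ne_zero hJ.index_ne_zero (FreeGroup.of i)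
    obtain ⟨m, hm, -, hm'⟩ := Subgroup.exists_pow_mem_of_index_ne_zero hJ.index_ne_zero (FreeGroup.of j)
    apply free_ne hij hn hm
    have h1 := free_comm (e.symm ⟨_, hn'⟩) (e.symm ⟨_, hm'⟩)
    rw [← map_mul, ← map_mul] at h1
    exact congrArg Subtype.val (e.symm.injective h1)
  · exact large_equiv e.symm (large_free _)

/-- finite index subgroups of virtually large groups -/
theorem large_sub {G : Type} [Group G] (h : VirtuallyLarge G) (H : Subgroup G) [hH : H.FiniteIndex] :
    VirtuallyLarge H := by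
  obtain ⟨Δ, hΔ, ι, hι, φ, hφ⟩ := h
  have h1 : ((H.subgroupOf Δ).map φ).FiniteIndex := by
    constructor
    have h2 : (H.subgroupOf Δ).FiniteIndex := inferInstance
    exact fun h0 => h2.index_ne_zero (by
      have h3 := Subgroup.index_map_dvd (H.subgroupOf Δ) hφ
      rw [h0] at h3
      exact absurd h3 (by
        rw [zero_dvd_iff]
        exact h2.index_ne_zero))
  have h2 : VirtuallyLarge ((H.subgroupOf Δ).map φ) := large_sub_free _
  have h3 : VirtuallyLarge (H.subgroupOf Δ) :=
    large_comap (φ.subgroupMap (H.subgroupOf Δ)) (φ.subgroupMap_surjective _) h2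
  have e : Δ.subgroupOf H ≃* H.subgroupOf Δ :=
    { toFun := fun x => ⟨⟨x.1.1, x.2⟩, x.1.2⟩
      invFun := fun x => ⟨⟨x.1.1, x.2⟩, x.1.2⟩
      left_inv := fun _ => rfl
      right_inv := fun _ => rfl
      map_mul' := fun _ _ => rfl }
  have h4 : VirtuallyLarge (Δ.subgroupOf H) := large_equiv e h3
  exact large_of_sub (Δ.subgroupOf H) h4

/-- quotients by finite normal subgroups -/
theorem large_quot {G Q : Type} [Group G] [Group Q] (f : G →* Q) (hf : Function.Surjective f)
    (hker : (f.ker : Set G).Finite) (h : VirtuallyLarge G) : VirtuallyLarge Q := by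
  obtain ⟨Δ, hΔ, ι, hι, φ, hφ⟩ := h
  have hle : (f.subgroupMap Δ).ker ≤ φ.ker := by
    intro x hx
    have h1 : (x : G) ∈ f.ker := congrArg Subtype.val (MonoidHom.mem_ker.1 hx)
    have h2 : ∃ k : ℕ, 0 < k ∧ (x : G) ^ k = 1 := by
      have h3 : IsOfFinOrder (x : G) := by
        have : Finite f.ker := hker.to_subtype
        have h4 : IsOfFinOrder (⟨x, h1⟩ : f.ker) := isOfFinOrder_of_finite _
        exact f.ker.subtype.isOfFinOrder h4
      exact isOfFinOrder_iff_pow_eq_one.1 h3
    obtain ⟨k, hk, hk1⟩ := h2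
    rw [MonoidHom.mem_ker]
    have h5 : φ x ^ k = 1 := by
      rw [← map_pow]
      have h6 : x ^ k = 1 := Subtype.ext hk1
      rw [h6, map_one]
    exact (pow_eq_one_iff_left (by omega)).1 h5
  refine ⟨Δ.map f, ?_, ι, hι,
    MonoidHom.liftOfSurjective (f.subgroupMap Δ) (f.subgroupMap_surjective Δ) ⟨φ, hle⟩, ?_⟩
  · constructor
    intro h0
    have h3 := Subgroup.index_map_dvd Δ hf
    rw [h0, zero_dvd_iff] at h3
    exact hΔ.index_ne_zero h3
  · intro y
    obtain ⟨x, hx⟩ := hφ y
    refine ⟨f.subgroupMap Δ x, ?_⟩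
    rw [← hx]
    exact MonoidHom.liftOfRightInverse_comp_apply _ _ _ _ _

/-! ### labels -/

theorem large_of_label {G : Type} [Group G] (H : Subgroup G) [H.FiniteIndex] (lam : H →* GL (Fin 2) ℤ)
    (hs : sM ∈ lam.range) (ht : tM ∈ lam.range) : VirtuallyLarge G := by
  have hle : San ≤ lam.range := by
    unfold San
    rw [Subgroup.closure_le]
    rintro g (h | h)
    · rw [h]; exact hs
    · rw [h]; exact ht
  obtain ⟨e⟩ := san_free
  have h1 : VirtuallyLarge San := large_equiv e.symm (large_free _)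
  have h2 : VirtuallyLarge (San.subgroupOf lam.range) := large_equiv (Subgroup.subgroupOfEquivOfLe hle) h1
  have h3 : VirtuallyLarge lam.range := large_of_sub _ h2
  have h4 : VirtuallyLarge H := large_comap lam.rangeRestrict lam.rangeRestrict_surjective h3
  exact large_of_sub H h4

/-- a permutation action with labels -/
theorem large_of_cocycle {G X : Type} [Group G] [Finite X] (π : G →* Perm X) (c : G → X → GL (Fin 2) ℤ)
    (hc : ∀ g h x, c (g * h) x = c g (π h x) * c h x) (x0 : X) (g1 g2 : G) (h1 : π g1 x0 = x0)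
    (h1' : c g1 x0 = aM) (h2 : π g2 x0 = x0) (h2' : c g2 x0 = sM) : VirtuallyLarge G := by
  have hone : c 1 x0 = 1 := by
    have h3 := hc 1 1 x0
    rw [mul_one, map_one, Perm.one_apply] at h3
    exact (left_eq_mul.1 h3)
  let H : Subgroup G := (MulAction.stabilizer (Perm X) x0).comap π
  have hH : H.FiniteIndex := by
    have h3 : π.ker.FiniteIndex := inferInstance
    refine Subgroup.finiteIndex_of_le (H := π.ker) fun g hg => ?_
    change π g x0 = x0
    rw [MonoidHom.mem_ker.1 hg, Perm.one_apply]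
  let lam : H →* GL (Fin 2) ℤ :=
    { toFun := fun h => c h x0
      map_one' := hone
      map_mul' := fun a b => by
        have hb : π b x0 = x0 := b.2
        change c (a * b : G) x0 = _
        rw [hc, hb] }
  have ha : aM ∈ lam.range := ⟨⟨g1, h1⟩, h1'⟩
  have hs : sM ∈ lam.range := ⟨⟨g2, h2⟩, h2'⟩
  refine large_of_label H lam hs ?_
  rw [← aM_conj]
  exact lam.range.mul_mem (lam.range.mul_mem ha hs) (lam.range.inv_mem ha)

/-- homomorphisms to a wreath product -/
theorem large_of_wreath {G X : Type} [Group G] [Finite X]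
    (φ : G →* (X → GL (Fin 2) ℤ) ⋊[mulAutArrow (G := Perm X) (M := GL (Fin 2) ℤ)] Perm X) (x0 : X) (g1 g2 : G)
    (h1 : (φ g1).right x0 = x0) (h1' : (φ g1).left x0 = aM) (h2 : (φ g2).right x0 = x0)
    (h2' : (φ g2).left x0 = sM) : VirtuallyLarge G := by
  refine large_of_cocycle (SemidirectProduct.rightHom.comp φ)
    (fun g x => (φ g).left ((φ g).right x)) ?_ x0 g1 g2 h1 ?_ h2 ?_
  · intro g h x
    rw [map_mul, SemidirectProduct.mul_left, SemidirectProduct.mul_right, Perm.mul_apply, Pi.mul_apply]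
    congr 1
    change (φ h).left ((φ g).right⁻¹ ((φ g).right ((φ h).right x))) = _
    rw [← Perm.mul_apply, inv_mul_cancel, Perm.one_apply]
  · rw [h1, h1']
  · rw [h2, h2']

end Pool.Agent.Helper82.VL
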