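import Pool.Agent.Helper82.VL.Idx
import Pool.Agent.Helper74.TF.Defs

/-!
# MP_0fb3e0: finite index of `G0` in `OU` and of `Gam0` in `H1`
-/

set_option autoImplicit false

namespace Pool.Agent.Helper82.VL

open H77T2 Pool.Agent.Helper74.TF

theorem finIdx_G0 : (G0.subgroupOf OU).FiniteIndex :=
  finIdx_units OU G0 (fun _ hu => ⟨hu.1, hu.2.1⟩) (fun _ hu h => ⟨hu, h⟩)

theorem finIdx_Gam0 : (Gam0.subgroupOf H1).FiniteIndex := finIdx_map rhoQ finIdx_G0

/-- for every finite extension `H` of `H1` -/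
theorem finIdx_Gam0_of {H : Subgroup (GL (Fin (5 + 1)) ℝ)} (h : H1 ≤ H)
    (hf : (H1.subgroupOf H).FiniteIndex) : (Gam0.subgroupOf H).FiniteIndex :=
  finIdx_trans Gam0_le h finIdx_Gam0 hf

/-- the intersection with `Gam0` has finite index in every subgroup of `H` -/
theorem finIdx_inf {H Γ : Subgroup (GL (Fin (5 + 1)) ℝ)} (h : H1 ≤ H)
    (hf : (H1.subgroupOf H).FiniteIndex) (hΓ : Γ ≤ H) :
    ((Gam0 ⊓ Γ).subgroupOf Γ).FiniteIndex := by
  rw [finIdx_relIndex, Subgroup.inf_relIndex_right]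
  intro h0
  have h1 := finIdx_relIndex.1 (finIdx_Gam0_of h hf)
  exact h1 (Subgroup.relIndex_eq_zero_of_le_right hΓ h0)

end Pool.Agent.Helper82.VL
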